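import Pool.Agent.W361.LQ.Defs

/-!
# Project LQ: the map to the circle and its divisibility (core)
-/

set_option autoImplicit false

namespace Pool.Agent.W395.LQ.Div

open BoundedContinuousFunction Pool.Agent.W361.LQ Topology

theorem core (h1 : (∀ S : Set ℕ, IsClosed (K S)) ∧ Continuous Phi)
    (h2 : ∀ a b : Pm, Phi a = Phi b →
      a.1 = b.1 ∧ ∀ n, a.2.1 n = b.2.1 n ∧ (a.2.1 n ≠ 0 → a.2.2 n = b.2.2 n)) (S : Set ℕ) :
    ∃ f : C(X S, UnitAddCircle), (∀ (a : Pm) (h : a ∈ K S), f (pt S a h) = a.1) ∧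
      ∀ n ∈ S, ∃ g : C(X S, UnitAddCircle), ∀ x, M n • g x = f x := by
  haveI : CompactSpace (K S) := isCompact_iff_compactSpace.mp (h1.1 S).isCompact
  obtain ⟨p, hpdef⟩ : ∃ p : K S → X S, p = fun a => pt S a.1 a.2 := ⟨_, rfl⟩
  have hp : Continuous p := by
    rw [hpdef]
    exact Continuous.subtype_mk (h1.2.comp continuous_subtype_val) _
  have hs : Function.Surjective p := by
    rw [hpdef]
    rintro ⟨_, a, ha, rfl⟩
    exact ⟨⟨a, ha⟩, rfl⟩
  have hv : ∀ a, (p a).1 = Phi a.1 := by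
    intro a
    rw [hpdef]
    rfl
  have hq : IsQuotientMap p := hp.isClosedMap.isQuotientMap hp hs
  have key : ∀ φ : K S → UnitAddCircle, Continuous φ → (∀ a b, p a = p b → φ a = φ b) →
      ∃ f : C(X S, UnitAddCircle), ∀ a, f (p a) = φ a := by
    intro φ hφ hφ'
    have hc : (fun x => φ (Function.surjInv hs x)) ∘ p = φ := by
      funext a
      exact hφ' _ _ (Function.surjInv_eq hs (p a))
    refine ⟨⟨fun x => φ (Function.surjInv hs x), ?_⟩, fun a => congrFun hc a⟩
    rw [hq.continuous_iff, hc]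
    exact hφ
  have hval : ∀ a b, p a = p b → Phi a.1 = Phi b.1 := by
    intro a b hab
    rw [← hv, ← hv, hab]
  obtain ⟨f, hf⟩ := key (fun a => a.1.1) (continuous_fst.comp continuous_subtype_val)
    (fun a b hab => (h2 a.1 b.1 (hval a b hab)).1)
  refine ⟨f, fun a h => ?_, fun n hn => ?_⟩
  · have := hf ⟨a, h⟩
    rw [hpdef] at this
    exact this
  have h01 : (1 : unitInterval) ≠ 0 := one_ne_zero
  obtain ⟨g, hg⟩ := key (fun a => a.1.2.2 n)
    ((continuous_apply n).comp (continuous_snd.comp (continuous_snd.comp continuous_subtype_val)))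
    (fun a b hab => ((h2 a.1 b.1 (hval a b hab)).2 n).2 (by rw [(a.2 n).2 hn]; exact h01))
  refine ⟨g, fun x => ?_⟩
  obtain ⟨a, rfl⟩ := hs x
  rw [hg, hf]
  exact (a.2 n).1

end Pool.Agent.W395.LQ.Div
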