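import Pool.Agent.W361.LQ.Stm
import Pool.Agent.W395.LQ.DivCore

/-!
# Project LQ: the map to the circle and its divisibility (LQ-DIV)
-/

set_option autoImplicit false

namespace Pool.Agent.W395.LQ.Div

open Pool.Agent.W361.LQ

theorem main (h1 : S_CPT) (h2 : S_INJ) : S_DIV := core h1 h2

end Pool.Agent.W395.LQ.Div
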